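import Pool.Agent.Lib.MP_3e612f_nt.NF.O.MRo

/-! The theorem of Matomaki and Radziwill, uniform range. -/

set_option autoImplicit false

namespace Pool.Agent.Lib.MP_3e612f_nt.NF

open Finset
open Pool.Agent.Lib.MP_3e612f_nt.MR (mu ex)

/-- Cutting a sum into blocks of length `h₁` and a rest. -/
private theorem blocks_u (f : ℕ → ℂ) (hf : ∀ m, ‖f m‖ ≤ 1) (h₁ s : ℕ) : ∀ q n : ℕ,
    ‖∑ i ∈ range (q * h₁ + s), f (n + i)‖ ≤
      ∑ i ∈ range q, ‖∑ h ∈ range h₁, f (n + i * h₁ + h)‖ + s := by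
  intro q
  induction q with
  | zero =>
    intro n
    rw [Nat.zero_mul, Nat.zero_add, range_zero, sum_empty, zero_add]
    refine (norm_sum_le _ _).trans ((sum_le_sum fun i _ => hf (n + i)).trans ?_)
    rw [sum_const, card_range, nsmul_eq_mul, mul_one]
  | succ q ih =>
    intro n
    have h1 : (q + 1) * h₁ + s = h₁ + (q * h₁ + s) := by ring
    rw [h1, sum_range_add, sum_range_succ']
    have h2 : ∑ x ∈ range (q * h₁ + s), f (n + (h₁ + x)) =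
        ∑ x ∈ range (q * h₁ + s), f (n + h₁ + x) := sum_congr rfl fun x _ => by rw [add_assoc]
    have h3 : ∑ i ∈ range q, ‖∑ h ∈ range h₁, f (n + (i + 1) * h₁ + h)‖ =
        ∑ i ∈ range q, ‖∑ h ∈ range h₁, f (n + h₁ + i * h₁ + h)‖ :=
      sum_congr rfl fun i _ => by
        refine congrArg _ (sum_congr rfl fun h _ => congrArg _ ?_)
        ring
    have h4 := ih (n + h₁)
    have h5 := norm_add_le (∑ x ∈ range h₁, f (n + x)) (∑ x ∈ range (q * h₁ + s), f (n + h₁ + x))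
    rw [h2, h3, Nat.zero_mul, Nat.add_zero]
    linarith

/-- `∑_{h = 1}^H f(n + h)` as a sum over `range`. -/
private theorem icc_u (f : ℕ → ℂ) (n H : ℕ) :
    ∑ h ∈ Icc 1 H, f (n + h) = ∑ i ∈ range H, f (n + 1 + i) := by
  have h2 : Icc 1 H = Ico 1 (H + 1) := by
    ext x
    rw [mem_Icc, mem_Ico]
    omega
  rw [h2, sum_Ico_eq_sum_range, Nat.add_sub_cancel]
  refine sum_congr rfl fun i _ => ?_
  rw [← add_assoc]

/-- `mr_o` for a fixed length `h₁` and `N + H ≥ N₀(h₁)`: cut `[1, H]` into `⌊H/h₁⌋` blocks of length `h₁` and a rest: `∑_{n≤N} |∑_{h≤H}| ≤ ∑_i ∑_{n ≤ N + H} |block| + h₁ N ≤ (H/h₁)(ε/4) h₁ (N + H) + h₁ N ≤ ε H N` for `N ≥ H ≥ 4h₁/ε`. -/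
theorem mr_u (ε : ℝ) (hε : 0 < ε) : ∃ D : ℕ, ∀ H N : ℕ, D ≤ H → D * H ≤ N →
    ∑ n ∈ Icc 1 N, ‖∑ h ∈ Icc 1 H, (mu (n + h) : ℂ)‖ ≤ ε * H * N := by
  obtain ⟨H₀, hH₀⟩ := mr_o (ε / 4) (by positivity)
  obtain ⟨N₀, hN₀⟩ := hH₀ (max H₀ 1) (le_max_left _ _)
  obtain ⟨h₁, hh₁⟩ : ∃ h₁ : ℕ, h₁ = max H₀ 1 := ⟨_, rfl⟩
  have hh1 : 1 ≤ h₁ := by rw [hh₁]; exact le_max_right _ _
  rw [← hh₁] at hN₀
  obtain ⟨D₁, hD₁⟩ := exists_nat_ge (2 * h₁ / ε)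
  refine ⟨max (max N₀ D₁) 1, fun H N hDH hDN => ?_⟩
  have hNH : N₀ ≤ H := ((le_max_left _ _).trans (le_max_left _ _)).trans hDH
  have hD₁H : D₁ ≤ H := ((le_max_right _ _).trans (le_max_left _ _)).trans hDH
  have hHN : H ≤ N := (Nat.le_mul_of_pos_left H (Nat.lt_of_lt_of_le Nat.zero_lt_one
    (le_max_right _ _))).trans hDN
  have hf : ∀ m : ℕ, ‖(mu m : ℂ)‖ ≤ 1 := by
    intro m
    rw [Complex.norm_real, Real.norm_eq_abs, mu]
    exact_mod_cast ArithmeticFunction.abs_moebius_le_one (n := m)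
  obtain ⟨q, hq⟩ : ∃ q : ℕ, q = H / h₁ := ⟨_, rfl⟩
  obtain ⟨s, hs⟩ : ∃ s : ℕ, s = H % h₁ := ⟨_, rfl⟩
  have hqs : q * h₁ + s = H := by
    rw [hq, hs, mul_comm]
    exact Nat.div_add_mod H h₁
  have hsh : s ≤ h₁ := by
    rw [hs]
    exact (Nat.mod_lt _ hh1).le
  have hqH : q * h₁ ≤ H := by omega
  have hblk := hN₀ (N + H) (by omega)
  have hone : ∀ n, ‖∑ h ∈ Icc 1 H, (mu (n + h) : ℂ)‖ ≤
      ∑ i ∈ range q, ‖∑ h ∈ Icc 1 h₁, (mu (n + i * h₁ + h) : ℂ)‖ + h₁ := by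
    intro n
    have h1 := blocks_u (fun m => (mu m : ℂ)) hf h₁ s q (n + 1)
    rw [hqs] at h1
    rw [icc_u (fun m => (mu m : ℂ)) n H]
    refine h1.trans ?_
    have h2 : ∑ i ∈ range q, ‖∑ h ∈ range h₁, (mu (n + 1 + i * h₁ + h) : ℂ)‖ =
        ∑ i ∈ range q, ‖∑ h ∈ Icc 1 h₁, (mu (n + i * h₁ + h) : ℂ)‖ := by
      refine sum_congr rfl fun i _ => congrArg _ ?_
      rw [icc_u (fun m => (mu m : ℂ)) (n + i * h₁) h₁]
      refine sum_congr rfl fun h _ => ?_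
      have h3 : n + 1 + i * h₁ + h = n + i * h₁ + 1 + h := by ring
      rw [h3]
    rw [h2]
    have h3 : (s : ℝ) ≤ h₁ := by exact_mod_cast hsh
    linarith
  have hrow : ∀ i ∈ range q, ∑ n ∈ Icc 1 N, ‖∑ h ∈ Icc 1 h₁, (mu (n + i * h₁ + h) : ℂ)‖ ≤
      ε / 4 * h₁ * ((N + H : ℕ) : ℝ) := by
    intro i hi
    rw [mem_range] at hi
    refine le_trans ?_ hblk
    have h1 : i * h₁ ≤ q * h₁ := Nat.mul_le_mul_right _ hi.le
    rw [← sum_image (f := fun m => ‖∑ h ∈ Icc 1 h₁, (mu (m + h) : ℂ)‖)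
      (g := fun n => n + i * h₁) (s := Icc 1 N) (fun a _ c _ hac => Nat.add_right_cancel hac)]
    refine sum_le_sum_of_subset_of_nonneg ?_ fun x _ _ => norm_nonneg _
    intro x hx
    rw [mem_image] at hx
    obtain ⟨m, hm, rfl⟩ := hx
    rw [mem_Icc] at hm ⊢
    omega
  have hε4 : 2 * (h₁ : ℝ) ≤ ε * H := by
    have h1 : 2 * (h₁ : ℝ) / ε ≤ H := hD₁.trans (by exact_mod_cast hD₁H)
    rw [div_le_iff₀ hε] at h1
    linarith
  calc ∑ n ∈ Icc 1 N, ‖∑ h ∈ Icc 1 H, (mu (n + h) : ℂ)‖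
      ≤ ∑ n ∈ Icc 1 N, (∑ i ∈ range q, ‖∑ h ∈ Icc 1 h₁, (mu (n + i * h₁ + h) : ℂ)‖ + h₁) :=
        sum_le_sum fun n _ => hone n
    _ = ∑ i ∈ range q, ∑ n ∈ Icc 1 N, ‖∑ h ∈ Icc 1 h₁, (mu (n + i * h₁ + h) : ℂ)‖ + N * h₁ := by
        rw [sum_add_distrib, sum_comm, sum_const, Nat.card_Icc, Nat.add_sub_cancel, nsmul_eq_mul]
    _ ≤ ∑ i ∈ range q, ε / 4 * h₁ * ((N + H : ℕ) : ℝ) + N * h₁ := by
        have := sum_le_sum hrow
        linarith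
    _ = ε / 4 * (q * h₁) * (N + H) + N * h₁ := by
        rw [sum_const, card_range, nsmul_eq_mul]
        push_cast
        ring
    _ ≤ ε / 4 * H * (N + N) + N * (ε * H / 2) := by
        have h1 : ((q : ℝ) * h₁) ≤ H := by exact_mod_cast hqH
        have h2 : (H : ℝ) ≤ N := by exact_mod_cast hHN
        have h3 : (h₁ : ℝ) ≤ ε * H / 2 := by linarith
        have h4 : (0 : ℝ) ≤ N := Nat.cast_nonneg _
        have h5 : ε / 4 * (q * h₁) * (N + H) ≤ ε / 4 * H * (N + N) := by gcongr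
        have h6 : (N : ℝ) * h₁ ≤ N * (ε * H / 2) := mul_le_mul_of_nonneg_left h3 h4
        linarith
    _ = ε * H * N := by ring

end Pool.Agent.Lib.MP_3e612f_nt.NF
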