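import Pool.Agent.Lib.MP_3e612f_nt.NF.P.RatSplit
import Pool.Agent.Lib.MP_3e612f_nt.NF.C.Base

/-! Nearly rational polynomials, uniform range. -/

set_option autoImplicit false

namespace Pool.Agent.Lib.MP_3e612f_nt.NF

open Finset
open Pool.Agent.Lib.MP_3e612f_nt.MR (mu ex)

private theorem abs_mu_le_u (n : ℕ) : |mu n| ≤ 1 := by
  unfold mu
  have := ArithmeticFunction.abs_moebius_le_one (n := n)
  exact_mod_cast this

/-- one full block, all classes -/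
private theorem block_le_u (q : ℕ) [NeZero q] (L n s u : ℕ) :
    |∑ h ∈ win q s (s + L) u, mu (n + h)| ≤ ∑ a : ZMod q, |∑ h ∈ range L,
      (if (((s + n + h : ℕ)) : ZMod q) = a then mu (s + n + h) else 0)| := by
  unfold win
  rw [Finset.sum_filter, Finset.sum_Ico_eq_sum_range, Nat.add_sub_cancel_left]
  have h2 : ∑ h ∈ range L, (if (s + h) % q = u % q then mu (n + (s + h)) else 0) =
      ∑ h ∈ range L, (if (((s + n + h : ℕ)) : ZMod q) = ((n + u : ℕ) : ZMod q) then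
        mu (s + n + h) else 0) := by
    refine Finset.sum_congr rfl fun h _ => ?_
    have h3 : (s + h) % q = u % q ↔
        (((s + n + h : ℕ)) : ZMod q) = (((n + u : ℕ)) : ZMod q) := by
      rw [← ZMod.natCast_eq_natCast_iff']
      push_cast
      rw [show (s : ZMod q) + n + h = n + (s + h) by ring, add_right_inj]
    have h4 : n + (s + h) = s + n + h := by ring
    simp only [h3, h4]
  rw [h2]
  exact Finset.single_le_sum (f := fun a : ZMod q => |∑ h ∈ range L,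
        (if (((s + n + h : ℕ)) : ZMod q) = a then mu (s + n + h) else 0)|)
    (fun a _ => abs_nonneg _) (Finset.mem_univ _)

private theorem block_sum_u (q : ℕ) [NeZero q] (L X₀ : ℕ) (η : ℝ) (hη : 0 ≤ η)
    (hX : ∀ X : ℕ, X₀ ≤ X → ∀ a : ZMod q, ∑ x ∈ range X,
      |∑ n ∈ range L, (if (((x + n : ℕ)) : ZMod q) = a then mu (x + n) else 0)| ≤ η * L * X)
    (N s u : ℕ) (hN : X₀ ≤ N) (hs : s ≤ N) :
    ∑ n ∈ range N, |∑ h ∈ win q s (s + L) u, mu (n + h)| ≤ q * (η * L * (2 * N)) := by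
  refine (Finset.sum_le_sum fun n _ => block_le_u q L n s u).trans ?_
  rw [Finset.sum_comm]
  refine (Finset.sum_le_card_nsmul _ _ (η * L * (2 * N)) ?_).trans (le_of_eq ?_)
  · intro a _
    have h1 := hX (s + N) (hN.trans (Nat.le_add_left _ _)) a
    rw [Finset.sum_range_add] at h1
    have h2 : (0 : ℝ) ≤ ∑ x ∈ range s, |∑ n ∈ range L,
          (if (((x + n : ℕ)) : ZMod q) = a then mu (x + n) else 0)| :=
      Finset.sum_nonneg fun _ _ => abs_nonneg _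
    have h4 : η * L * ((s + N : ℕ) : ℝ) ≤ η * L * (2 * N) := by
      apply mul_le_mul_of_nonneg_left _ (by positivity)
      have : s + N ≤ 2 * N := by omega
      exact_mod_cast this
    linarith
  · rw [Finset.card_univ, ZMod.card, nsmul_eq_mul]

private theorem norm_win_le (q x y u n : ℕ) :
    ‖∑ h ∈ win q x y u, (mu (n + h) : ℂ)‖ ≤ ((y - x : ℕ) : ℝ) := by
  refine (norm_sum_le _ _).trans ?_
  refine (Finset.sum_le_card_nsmul _ _ 1 fun h _ => ?_).trans ?_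
  · rw [Complex.norm_real, Real.norm_eq_abs]
    exact abs_mu_le_u _
  · rw [nsmul_eq_mul, mul_one]
    have h1 : (win q x y u).card ≤ y - x := by
      unfold win
      refine (Finset.card_filter_le _ _).trans ?_
      rw [Nat.card_Ico]
    exact_mod_cast h1

/-- `short_windows` (P/KmRat) with a constant depending only on `q, ε, h₁`: in its proof `MR.mr` is used for the length `h₁` only and for `X = N + i h₁ ≥ N`, so `N ≥ max(X₀(h₁), H)` suffices. -/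
theorem short_windows_u (q : ℕ) (hq : 1 ≤ q) (ε : ℝ) (hε : 0 < ε) : ∃ h₀ : ℕ, ∀ h₁ : ℕ, h₀ ≤ h₁ → 1 ≤ h₁ → ∃ D : ℕ, ∀ H N : ℕ, D ≤ H → D * H ≤ N → ∀ u : ℕ,
    ∑ n ∈ range N, ∑ i ∈ range (H / h₁ + 1), ‖∑ h ∈ win q (max 1 (i * h₁)) (min ((i + 1) * h₁) (H + 1)) u, (mu (n + h) : ℂ)‖ ≤ ε * H * N := by
  have : NeZero q := ⟨by omega⟩
  have hq0 : (0 : ℝ) < q := by exact_mod_cast hq
  obtain ⟨h₀, hmr⟩ := MR.mr q (ε / (8 * q)) (by positivity)
  refine ⟨h₀, fun h₁ hh hh1 => ?_⟩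
  obtain ⟨X₀, hX⟩ := hmr h₁ hh
  have hh1' : (0 : ℝ) < h₁ := by exact_mod_cast hh1
  refine ⟨max (max X₀ h₁) (max 1 ⌈4 * h₁ / ε⌉₊), fun H N hDH hDN u => ?_⟩
  obtain ⟨D, hD⟩ : ∃ D : ℕ, D = max (max X₀ h₁) (max 1 ⌈4 * h₁ / ε⌉₊) := ⟨_, rfl⟩
  rw [← hD] at hDH hDN
  have hD1 : X₀ ≤ D := by rw [hD]; exact (le_max_left _ _).trans (le_max_left _ _)
  have hD2 : h₁ ≤ D := by rw [hD]; exact (le_max_right _ _).trans (le_max_left _ _)
  have hD3 : 1 ≤ D := by rw [hD]; exact (le_max_left _ _).trans (le_max_right _ _)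
  have hD4 : 4 * h₁ / ε ≤ (H : ℝ) := by
    refine (Nat.le_ceil _).trans ?_
    have h1 : ⌈4 * h₁ / ε⌉₊ ≤ D := by
      rw [hD]
      exact (le_max_right _ _).trans (le_max_right _ _)
    exact_mod_cast h1.trans hDH
  have hH1 : 1 ≤ H := hD3.trans hDH
  have hNX : X₀ ≤ N := by
    refine hD1.trans (le_trans ?_ hDN)
    exact Nat.le_mul_of_pos_right D hH1
  have hNH : H ≤ N := by
    refine le_trans ?_ hDN
    exact Nat.le_mul_of_pos_left H hD3
  have hhH : h₁ ≤ H := hD2.trans hDH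
  -- the sum for one `i`
  have hone : ∀ i ∈ range (H / h₁ + 1),
      ∑ n ∈ range N, ‖∑ h ∈ win q (max 1 (i * h₁)) (min ((i + 1) * h₁) (H + 1)) u, (mu (n + h) : ℂ)‖ ≤
        q * (ε / (8 * q) * h₁ * (2 * N)) + ((if i = 0 then (N : ℝ) * h₁ else 0) +
          (if i = H / h₁ then (N : ℝ) * h₁ else 0)) := by
    intro i hi
    rw [mem_range, Nat.lt_succ_iff] at hi
    have hiH : i * h₁ ≤ H := (Nat.mul_le_mul_right h₁ hi).trans (Nat.div_mul_le_self H h₁)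
    have hA : (0 : ℝ) ≤ q * (ε / (8 * q) * h₁ * (2 * N)) := by positivity
    by_cases hc : i = 0 ∨ i = H / h₁
    · have h1 : ∑ n ∈ range N, ‖∑ h ∈ win q (max 1 (i * h₁)) (min ((i + 1) * h₁) (H + 1)) u, (mu (n + h) : ℂ)‖ ≤
          (N : ℝ) * h₁ := by
        refine (Finset.sum_le_card_nsmul _ _ (h₁ : ℝ) fun n _ => ?_).trans ?_
        · refine (norm_win_le _ _ _ _ _).trans ?_
          have h2 : min ((i + 1) * h₁) (H + 1) - max 1 (i * h₁) ≤ h₁ := by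
            have h3 := min_le_left ((i + 1) * h₁) (H + 1)
            have h4 := le_max_right 1 (i * h₁)
            have h5 : (i + 1) * h₁ = i * h₁ + h₁ := by ring
            omega
          exact_mod_cast h2
        · rw [card_range, nsmul_eq_mul]
      have h2 : (N : ℝ) * h₁ ≤ (if i = 0 then (N : ℝ) * h₁ else 0) +
          (if i = H / h₁ then (N : ℝ) * h₁ else 0) := by
        have h3 : (0 : ℝ) ≤ N * h₁ := by positivity
        rcases hc with hc | hc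
        · rw [if_pos hc]
          have : (0 : ℝ) ≤ (if i = H / h₁ then (N : ℝ) * h₁ else 0) := by
            split_ifs
            · exact h3
            · exact le_rfl
          linarith
        · rw [if_pos hc]
          have : (0 : ℝ) ≤ (if i = 0 then (N : ℝ) * h₁ else 0) := by
            split_ifs
            · exact h3
            · exact le_rfl
          linarith
      linarith
    · rw [not_or] at hc
      rw [if_neg hc.1, if_neg hc.2, add_zero, add_zero]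
      have hi1 : 1 ≤ i := Nat.one_le_iff_ne_zero.2 hc.1
      have hi2 : i + 1 ≤ H / h₁ := lt_of_le_of_ne hi hc.2
      have hi3 : (i + 1) * h₁ ≤ H :=
        (Nat.mul_le_mul_right h₁ hi2).trans (Nat.div_mul_le_self H h₁)
      have hi4 : 1 ≤ i * h₁ := Nat.mul_pos hi1 hh1
      rw [max_eq_right hi4, min_eq_left (hi3.trans (Nat.le_succ H)),
        show (i + 1) * h₁ = i * h₁ + h₁ by ring]
      have h1 : ∀ n ∈ range N, ‖∑ h ∈ win q (i * h₁) (i * h₁ + h₁) u, (mu (n + h) : ℂ)‖ =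
          |∑ h ∈ win q (i * h₁) (i * h₁ + h₁) u, mu (n + h)| := by
        intro n _
        rw [← Complex.ofReal_sum, Complex.norm_real, Real.norm_eq_abs]
      rw [Finset.sum_congr rfl h1]
      exact block_sum_u q h₁ X₀ (ε / (8 * q)) (by positivity) hX N (i * h₁) u hNX
        (hiH.trans hNH)
  rw [Finset.sum_comm]
  refine (Finset.sum_le_sum hone).trans ?_
  rw [Finset.sum_add_distrib, Finset.sum_add_distrib, Finset.sum_const, card_range, nsmul_eq_mul,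
    Finset.sum_ite_eq' (range (H / h₁ + 1)) 0 (fun _ => (N : ℝ) * h₁),
    Finset.sum_ite_eq' (range (H / h₁ + 1)) (H / h₁) (fun _ => (N : ℝ) * h₁),
    if_pos (mem_range.2 (Nat.succ_pos _)), if_pos (mem_range.2 (Nat.lt_succ_self _))]
  have h2 : ((H / h₁ + 1 : ℕ) : ℝ) * h₁ ≤ 2 * H := by
    have h3 : (H / h₁ + 1) * h₁ ≤ 2 * H := by
      have h4 := Nat.div_mul_le_self H h₁
      have h5 : (H / h₁ + 1) * h₁ = H / h₁ * h₁ + h₁ := by ring
      omega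
    exact_mod_cast h3
  have h3 : ((H / h₁ + 1 : ℕ) : ℝ) * (q * (ε / (8 * q) * h₁ * (2 * N))) ≤ ε / 2 * H * N := by
    have e1 : ((H / h₁ + 1 : ℕ) : ℝ) * (q * (ε / (8 * q) * h₁ * (2 * N))) =
        ε / 4 * N * (((H / h₁ + 1 : ℕ) : ℝ) * h₁) := by
      field_simp
      ring
    rw [e1]
    have := mul_le_mul_of_nonneg_left h2 (show 0 ≤ ε / 4 * (N : ℝ) by positivity)
    linarith
  have h4 : (N : ℝ) * h₁ ≤ ε / 4 * H * N := by
    have e1 : 4 * (h₁ : ℝ) ≤ H * ε := by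
      rwa [div_le_iff₀ hε] at hD4
    have := mul_le_mul_of_nonneg_left e1 (Nat.cast_nonneg (α := ℝ) N)
    linarith
  linarith

open scoped Classical in
/-- `km_rat` (P/KmRat) from `short_windows_u`. -/
theorem km_rat_u (t : ℕ) (Q R : ℕ) (ε : ℝ) (hε : 0 < ε) : ∃ ρ : ℝ, 0 < ρ ∧ ∃ δ : ℝ, 0 < δ ∧ ∃ D : ℕ, ∀ H N : ℕ, D ≤ H → D * H ≤ N → ∀ α : ℕ → Fin t → ℝ,
    ∑ n ∈ (range N).filter (fun n => RatC Q R ρ δ H (α n)), ‖∑ h ∈ Icc 1 H, (mu (n + h) : ℂ) * ex (pol (α n) (h : ℝ))‖ ≤ ε * H * N := by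
  obtain ⟨M, hM⟩ : ∃ M : ℕ, M = Q * (R + 1) := ⟨_, rfl⟩
  obtain ⟨η, hη⟩ : ∃ η : ℝ, η = ε / (2 * ((M : ℝ) + 1) ^ 2) := ⟨_, rfl⟩
  have hη0 : 0 < η := by
    rw [hη]
    positivity
  have hsw : ∀ q : ℕ, ∃ h₀ : ℕ, 1 ≤ q → ∀ h₁ : ℕ, h₀ ≤ h₁ → 1 ≤ h₁ → ∃ D : ℕ, ∀ H N : ℕ, D ≤ H → D * H ≤ N → ∀ u : ℕ,
      ∑ n ∈ range N, ∑ i ∈ range (H / h₁ + 1), ‖∑ h ∈ win q (max 1 (i * h₁)) (min ((i + 1) * h₁) (H + 1)) u, (mu (n + h) : ℂ)‖ ≤ η * H * N := by
    intro q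
    by_cases hq : 1 ≤ q
    · obtain ⟨h₀, h⟩ := short_windows_u q hq η hη0
      exact ⟨h₀, fun _ => h⟩
    · exact ⟨0, fun h => absurd h hq⟩
  choose h₀ hh₀ using hsw
  obtain ⟨h₁, hh₁⟩ : ∃ h₁ : ℕ, h₁ = ∑ q ∈ Icc 1 M, h₀ q + 1 := ⟨_, rfl⟩
  have hh₁1 : 1 ≤ h₁ := by
    rw [hh₁]
    exact Nat.succ_pos _
  have hh₁q : ∀ q ∈ Icc 1 M, h₀ q ≤ h₁ := by
    intro q hq
    rw [hh₁]
    exact (Finset.single_le_sum (f := h₀) (fun _ _ => Nat.zero_le _) hq).trans (Nat.le_succ _)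
  have hD : ∀ q : ℕ, ∃ D : ℕ, q ∈ Icc 1 M → ∀ H N : ℕ, D ≤ H → D * H ≤ N → ∀ u : ℕ,
      ∑ n ∈ range N, ∑ i ∈ range (H / h₁ + 1), ‖∑ h ∈ win q (max 1 (i * h₁)) (min ((i + 1) * h₁) (H + 1)) u, (mu (n + h) : ℂ)‖ ≤ η * H * N := by
    intro q
    by_cases hq : q ∈ Icc 1 M
    · obtain ⟨D, hD⟩ := hh₀ q (mem_Icc.1 hq).1 h₁ (hh₁q q hq) hh₁1
      exact ⟨D, fun _ => hD⟩
    · exact ⟨0, fun h => absurd h hq⟩
  choose D hD using hD
  obtain ⟨ρ, hρ, δ, hδ, hsplit⟩ := rat_split t Q (R + 1) h₁ (Nat.succ_pos R) hh₁1 (ε / 2) (by positivity)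
  refine ⟨ρ, hρ, δ, hδ, ∑ q ∈ Icc 1 M, D q + 1, fun H N hH hN α => ?_⟩
  have hH1 : 1 ≤ H := (Nat.succ_pos _).trans_le hH
  have hDq : ∀ q ∈ Icc 1 M, D q ≤ ∑ q ∈ Icc 1 M, D q + 1 := fun q hq =>
    (Finset.single_le_sum (f := D) (fun _ _ => Nat.zero_le _) hq).trans (Nat.le_succ _)
  obtain ⟨W, hW⟩ : ∃ W : ℕ → ℝ, ∀ n, W n = ∑ q ∈ Icc 1 M, ∑ u ∈ range q, ∑ i ∈ range (H / h₁ + 1),
      ‖∑ h ∈ win q (max 1 (i * h₁)) (min ((i + 1) * h₁) (H + 1)) u, (mu (n + h) : ℂ)‖ :=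
    ⟨_, fun _ => rfl⟩
  have hW0 : ∀ n, 0 ≤ W n := by
    intro n
    rw [hW]
    exact Finset.sum_nonneg fun _ _ => Finset.sum_nonneg fun _ _ =>
      Finset.sum_nonneg fun _ _ => norm_nonneg _
  have hone : ∀ n ∈ (range N).filter (fun n => RatC Q R ρ δ H (α n)),
      ‖∑ h ∈ Icc 1 H, (mu (n + h) : ℂ) * ex (pol (α n) (h : ℝ))‖ ≤ ε / 2 * H + W n := by
    intro n hn
    have hR : RatC Q (R + 1) ρ δ H (α n) := by
      obtain ⟨h1, h2⟩ := (Finset.mem_filter.1 hn).2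
      refine ⟨h1, fun j hj => ?_⟩
      obtain ⟨r, hr1, hr2, b, hb⟩ := h2 j hj
      exact ⟨r, hr1, hr2.trans (Nat.le_succ R), b, hb⟩
    have h3 := hsplit H hH1 (fun h => (mu (n + h) : ℂ)) (fun h => by
      rw [Complex.norm_real, Real.norm_eq_abs]
      exact abs_mu_le_u _) (α n) hR
    rw [hW, hM]
    exact h3
  refine (Finset.sum_le_sum hone).trans ?_
  have h4 : ∑ n ∈ (range N).filter (fun n => RatC Q R ρ δ H (α n)), (ε / 2 * H + W n) ≤
      ∑ n ∈ range N, (ε / 2 * H + W n) := by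
    refine Finset.sum_le_sum_of_subset_of_nonneg (Finset.filter_subset _ _) fun n _ _ => ?_
    have := hW0 n
    positivity
  refine h4.trans ?_
  rw [Finset.sum_add_distrib, Finset.sum_const, card_range, nsmul_eq_mul]
  have h5 : ∑ n ∈ range N, W n ≤ (M : ℝ) * (M * (η * H * N)) := by
    simp only [hW]
    rw [Finset.sum_comm]
    refine (Finset.sum_le_card_nsmul _ _ ((M : ℝ) * (η * H * N)) fun q hq => ?_).trans (le_of_eq ?_)
    · rw [Finset.sum_comm]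
      refine (Finset.sum_le_card_nsmul _ _ (η * H * N) fun u _ => ?_).trans ?_
      · exact hD q hq H N ((hDq q hq).trans hH) ((Nat.mul_le_mul_right H (hDq q hq)).trans hN) u
      · rw [card_range, nsmul_eq_mul]
        have h6 : (q : ℝ) ≤ M := by exact_mod_cast (mem_Icc.1 hq).2
        exact mul_le_mul_of_nonneg_right h6 (by positivity)
    · rw [Nat.card_Icc, Nat.add_sub_cancel, nsmul_eq_mul]
  have h7 : (M : ℝ) * (M * (η * H * N)) ≤ ε / 2 * H * N := by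
    have h8 : η * (2 * ((M : ℝ) + 1) ^ 2) = ε := by
      rw [hη]
      field_simp
    have h9 : (M : ℝ) * M * η ≤ ε / 2 := by
      have h10 : (0 : ℝ) ≤ M := Nat.cast_nonneg M
      nlinarith [mul_nonneg h10 hη0.le]
    have h11 := mul_le_mul_of_nonneg_right h9 (show (0 : ℝ) ≤ H * N by positivity)
    linarith
  linarith

end Pool.Agent.Lib.MP_3e612f_nt.NF
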