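import Pool.Agent.Lib.MP_3e612f_nt.NF.R.MainSU
import Pool.Agent.Lib.MP_3e612f_nt.NF.R.KmRatU
import Pool.Agent.Lib.MP_3e612f_nt.NF.P.KmOneO

/-! Level one, uniform range. -/

set_option autoImplicit false

namespace Pool.Agent.Lib.MP_3e612f_nt.NF

open Finset
open Pool.Agent.Lib.MP_3e612f_nt.MR (mu ex)

open scoped Classical in
/-- `km_one_o` (P/KmOneO) with `windows_su` and `km_rat_u`. -/
theorem km_one_u (t : ℕ) (i : Fin t) (hi : (i : ℕ) = 0) (C : Set ℝ) (hC : IsClosed C) (hp : Per1 C) (h0 : MeasureTheory.volume C = 0) (Q : ℕ) (ε : ℝ) (hε : 0 < ε) :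
    ∃ δ : ℝ, 0 < δ ∧ ∃ D : ℕ, ∀ H N : ℕ, D ≤ H → D * H ≤ N → ∀ α : ℕ → Fin t → ℝ,
      ∑ n ∈ (Icc 1 N).filter (fun n => Cond 1 C Q δ H (α n)), ‖∑ h ∈ Icc 1 H, (mu (n + h) : ℂ) * ex (pol (α n) (h : ℝ))‖
        ≤ ε * H * N := by
  have hf1 : ∀ (o : Bool × (Fin t → ℝ)) (n : ℕ), ‖(fun (o : Bool × (Fin t → ℝ)) (n : ℕ) => if o.1 then ex (pol o.2 (n : ℝ)) else 0) o n‖ ≤ 1 := by
    intro o n
    dsimp only
    split_ifs
    · exact (norm_ex _).le
    · simp
  obtain ⟨R₀, hR⟩ := windows_su ((i : ℕ) + 1) (by omega) (fun (o : Bool × (Fin t → ℝ)) (n : ℕ) => if o.1 then ex (pol o.2 (n : ℝ)) else 0) hf1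
    (fun o => o.2 i)
    (fun δ H o => ∃ q : ℕ, 1 ≤ q ∧ q ≤ Q ∧ ∀ j : Fin t, (i : ℕ) + 1 ≤ (j : ℕ) → dZ (q * o.2 j) ≤ δ / (H : ℝ) ^ ((j : ℕ) + 1 - ((i : ℕ) + 1)))
    (by
      rintro δ δ' hδ H o ⟨q, h1, h2, h3⟩
      refine ⟨q, h1, h2, fun j hj => (h3 j hj).trans ?_⟩
      exact div_le_div_of_nonneg_right hδ (by positivity))
    (pair_level t i Q) C hC hp h0 (ε / 2) (by positivity)
  obtain ⟨ρ, hρ, δ₁, hδ₁, D₁, hkr⟩ := km_rat_u t Q R₀ (ε / 4) (by positivity)
  obtain ⟨δ₂, hδ₂, D₂, hw⟩ := hR ρ hρ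
  refine ⟨min δ₁ δ₂, lt_min hδ₁ hδ₂, max (max D₁ D₂) 1, fun H N hH hHN α => ?_⟩
  have hH1 : D₁ ≤ H := (le_max_left _ _).trans ((le_max_left _ _).trans hH)
  have hH2 : D₂ ≤ H := (le_max_right _ _).trans ((le_max_left _ _).trans hH)
  have hH0 : 1 ≤ H := (le_max_right _ _).trans hH
  have hNN2 : D₂ * H ≤ N :=
    (Nat.mul_le_mul_right H ((le_max_right _ _).trans (le_max_left _ _))).trans hHN
  have hNN3 : D₁ * H ≤ N :=
    (Nat.mul_le_mul_right H ((le_max_left _ _).trans (le_max_left _ _))).trans hHN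
  have hNN1 : 1 ≤ N :=
    (Nat.mul_le_mul (le_max_right (max D₁ D₂) 1) hH0).trans hHN
  set g : ℕ → ℝ := fun n => ‖∑ h ∈ Icc 1 H, (mu (n + h) : ℂ) * ex (pol (α n) (h : ℝ))‖ with hg
  have hg0 : ∀ n, 0 ≤ g n := fun n => norm_nonneg _
  -- the irrational kind
  set P : ℕ → Prop := fun n => Cond 1 C Q (min δ₁ δ₂) H (α n) ∧ ∀ r : ℕ, 1 ≤ r → r < R₀ → ∀ b : ℤ, ρ ≤ |α n i - b / r| with hP
  have hirr : ∑ n ∈ (Icc 1 N).filter P, g n ≤ ε / 2 * H * N := by
    by_cases hex : ∃ n₀, P n₀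
    · obtain ⟨n₀, hn₀⟩ := hex
      have hPA : ∀ n, P n → ∀ B : Bool, (∃ q : ℕ, 1 ≤ q ∧ q ≤ Q ∧ ∀ j : Fin t, (i : ℕ) + 1 ≤ (j : ℕ) → dZ (q * (B, α n).2 j) ≤ δ₂ / (H : ℝ) ^ ((j : ℕ) + 1 - ((i : ℕ) + 1))) ∧
          (∃ x ∈ C, |(B, α n).2 i - x| ≤ δ₂) ∧ (∀ r : ℕ, 1 ≤ r → r < R₀ → ∀ b : ℤ, ρ ≤ |(B, α n).2 i - b / r|) := by
        rintro n ⟨⟨⟨q, h1, h2, h3⟩, h4⟩, h5⟩ B
        refine ⟨⟨q, h1, h2, ?_⟩, ?_, h5⟩
        · intro j hj
          have h6 := h3 j (by omega)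
          have h7 : (j : ℕ) + 1 - ((i : ℕ) + 1) = (j : ℕ) + 1 - 1 := by omega
          rw [h7]
          refine h6.trans ?_
          exact div_le_div_of_nonneg_right (min_le_right _ _) (by positivity)
        · obtain ⟨y, hy, hy2⟩ := h4 i (by omega)
          exact ⟨y, hy, hy2.trans (min_le_right _ _)⟩
      have h8 := hw H N hH2 hNN2 (fun n => if P n then (true, α n) else (false, α n₀)) (by
        intro n
        by_cases hn : P n
        · simp only [hn, if_true]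
          exact hPA n hn true
        · simp only [hn, if_false]
          exact hPA n₀ hn₀ false)
      refine le_trans ?_ h8
      rw [sum_filter]
      refine sum_le_sum fun n _ => ?_
      by_cases hn : P n
      · have e1 : (if P n then (true, α n) else (false, α n₀)) = (true, α n) := if_pos hn
        rw [if_pos hn, e1]
        refine le_of_eq ?_
        simp only [hg]
        congr 2
      · rw [if_neg hn]
        exact norm_nonneg _
    · have h9 : (Icc 1 N).filter P = ∅ := by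
        rw [filter_eq_empty_iff]
        intro n _ hn
        exact hex ⟨n, hn⟩
      rw [h9, sum_empty]
      positivity
  -- the rational kind
  have hrat : ∑ n ∈ Icc 1 N, (if RatC Q R₀ ρ δ₁ H (α n) then g n else 0) ≤ ε / 2 * H * N := by
    have h1 := hkr H (N + 1) hH1 (by omega) α
    rw [sum_filter] at h1
    have h2 : ∑ n ∈ Icc 1 N, (if RatC Q R₀ ρ δ₁ H (α n) then g n else 0) ≤
        ∑ n ∈ range (N + 1), (if RatC Q R₀ ρ δ₁ H (α n) then g n else 0) := by
      refine sum_le_sum_of_subset_of_nonneg (fun n hn => ?_) fun n _ _ => ?_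
      · rw [mem_Icc] at hn
        rw [mem_range]
        omega
      · split_ifs
        · exact hg0 n
        · exact le_rfl
    refine (h2.trans h1).trans ?_
    have h3 : ((N + 1 : ℕ) : ℝ) ≤ 2 * N := by
      have h4 : (1 : ℝ) ≤ N := by exact_mod_cast hNN1
      push_cast
      linarith
    calc ε / 4 * H * ((N + 1 : ℕ) : ℝ) ≤ ε / 4 * H * (2 * N) :=
          mul_le_mul_of_nonneg_left h3 (by positivity)
      _ = ε / 2 * H * N := by ring
  have hsplit : ∑ n ∈ (Icc 1 N).filter (fun n => Cond 1 C Q (min δ₁ δ₂) H (α n)), g n ≤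
      ∑ n ∈ (Icc 1 N).filter P, g n + ∑ n ∈ Icc 1 N, (if RatC Q R₀ ρ δ₁ H (α n) then g n else 0) := by
    rw [sum_filter, sum_filter, ← sum_add_distrib]
    refine sum_le_sum fun n _ => ?_
    have hnn : 0 ≤ g n := hg0 n
    by_cases hc : Cond 1 C Q (min δ₁ δ₂) H (α n)
    · by_cases hPn : P n
      · rw [if_pos hc, if_pos hPn]
        have : 0 ≤ (if RatC Q R₀ ρ δ₁ H (α n) then g n else 0) := by
          split_ifs
          · exact hnn
          · exact le_rfl
        linarith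
      · have hR : RatC Q R₀ ρ δ₁ H (α n) := by
          have h1 : ∃ r : ℕ, 1 ≤ r ∧ r < R₀ ∧ ∃ b : ℤ, |α n i - b / r| < ρ := by
            by_contra hcon
            push Not at hcon
            exact hPn ⟨hc, hcon⟩
          obtain ⟨r, hr1, hr2, b, hb⟩ := h1
          obtain ⟨⟨q, h1, h2, h3⟩, -⟩ := id hc
          refine ⟨⟨q, h1, h2, ?_⟩, ?_⟩
          · intro j hj
            have h4 := h3 j hj
            rw [Nat.add_sub_cancel] at h4
            exact h4.trans (div_le_div_of_nonneg_right (min_le_left _ _) (by positivity))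
          · intro j hj
            have hj0 : j = i := Fin.ext (by omega)
            rw [hj0]
            exact ⟨r, hr1, hr2.le, b, hb.le⟩
        rw [if_pos hc, if_neg hPn, if_pos hR]
        linarith
    · rw [if_neg hc]
      have h1 : 0 ≤ (if P n then g n else 0) := by
        split_ifs
        · exact hnn
        · exact le_rfl
      have h2 : 0 ≤ (if RatC Q R₀ ρ δ₁ H (α n) then g n else 0) := by
        split_ifs
        · exact hnn
        · exact le_rfl
      linarith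
  refine hsplit.trans ?_
  refine (add_le_add hirr hrat).trans (le_of_eq ?_)
  ring

end Pool.Agent.Lib.MP_3e612f_nt.NF
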