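import Pool.Agent.Lib.MP_3e612f_nt.NF.R.OneNU
import Pool.Agent.Lib.MP_3e612f_nt.NF.O.MainO

/-! Windows, vector frequencies, null sets, uniform range. -/

set_option autoImplicit false

namespace Pool.Agent.Lib.MP_3e612f_nt.NF

open Finset
open Pool.Agent.Lib.MP_3e612f_nt.MR (mu ex)

/-- a periodic set which is null in `[0,1)` is null -/
theorem mainU_null (C : Set ℝ) (hper : ∀ x ∈ C, ∀ z : ℤ, x + z ∈ C)
    (h : MeasureTheory.volume (C ∩ Set.Ico 0 1) = 0) : MeasureTheory.volume C = 0 := by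
  have h1 : C ⊆ ⋃ z : ℤ, (fun x : ℝ => x + z) ⁻¹' (C ∩ Set.Ico 0 1) := by
    intro x hx
    rw [Set.mem_iUnion]
    refine ⟨-⌊x⌋, hper x hx _, ?_, ?_⟩
    · have := Int.floor_le x
      push_cast
      linarith
    · have := Int.lt_floor_add_one x
      push_cast
      linarith
  refine MeasureTheory.measure_mono_null h1 (MeasureTheory.measure_iUnion_null fun z => ?_)
  rw [MeasureTheory.measure_preimage_add_right]
  exact h

/-- `windows_o` (O/MainO) with `one_n_u`: a constant `D` and all `H ≥ D`, `N ≥ D H`. -/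
theorem windows_u (t : ℕ) (ht : 1 ≤ t) {ι Om : Type} [Fintype ι] (f : Om → ℕ → ℂ) (hf : ∀ o n, ‖f o n‖ ≤ 1) (fr : Om → ι → ℝ) (hp : PairHyp t f fr)
    (ε : ℝ) (hε : 0 < ε) : ∃ B : ℕ, ∀ S : Set Om,
      (∀ m : ι → ℤ, m ≠ 0 → (∀ i, |m i| ≤ B) → Small 0 (Fr {x | ∃ o ∈ S, x = dot m (fr o)})) →
      ∃ D : ℕ, ∀ H N : ℕ, D ≤ H → D * H ≤ N → ∀ o : ℕ → Om, (∀ n, o n ∈ S) →
        ∑ n ∈ Icc 1 N, ‖∑ h ∈ Icc 1 H, (mu (n + h) : ℂ) * f (o n) h‖ ≤ ε * H * N := by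
  classical
  -- constants
  set e : ℝ := min (ε / 2) 1 with he
  have he0 : 0 < e := lt_min (by positivity) one_pos
  have he1 : e ≤ 1 := min_le_right _ _
  have heε : 2 * e ≤ ε := by
    have := min_le_left (ε / 2) 1
    linarith
  obtain ⟨B, hB⟩ := hp (e ^ 2 / 512) (by positivity)
  obtain ⟨U, hUne, -, hU⟩ := box_finset ι B
  set κ₂ : ℝ := e ^ 2 / 16384 / (#(U ×ˢ U) : ℝ) with hκ₂
  have hUU : (0 : ℝ) < (#(U ×ˢ U) : ℝ) := by
    rw [card_product]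
    have := hUne.card_pos
    positivity
  have hκ₂0 : 0 < κ₂ := by positivity
  refine ⟨B, fun S hS => ?_⟩
  -- the closed set
  set U' : Finset (ι → ℤ) := U.filter (fun m => m ≠ 0) with hU'
  have hU'S : ∀ m ∈ U', Small 0 (Fr {x | ∃ o ∈ S, x = dot m (fr o)}) := by
    intro m hm
    rw [hU', mem_filter] at hm
    exact hS m hm.2 ((hU m).mp hm.1)
  obtain ⟨hCcl, hCper, hCrat, hCvol'⟩ := union_small U' (fun m => Fr {x | ∃ o ∈ S, x = dot m (fr o)}) 0 (fun m _ => Fr_closed _) (fun m _ x hx z => Fr_add_int _ hx z) hU'S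
  set C : Set ℝ := ⋃ m ∈ U', Fr {x | ∃ o ∈ S, x = dot m (fr o)} with hC
  have hmemC : ∀ m ∈ U', ∀ o ∈ S, dot m (fr o) ∈ C := by
    intro m hm o ho
    rw [hC]
    simp only [Set.mem_iUnion]
    exact ⟨m, hm, mem_Fr ⟨o, ho, rfl⟩⟩
  have hCvol : MeasureTheory.volume C = 0 := by
    refine mainU_null C hCper (le_antisymm (hCvol'.trans (le_of_eq ?_)) bot_le)
    rw [mul_zero, ENNReal.ofReal_zero]
  obtain ⟨r₀, hr₀⟩ := block_null t ht C hCcl hCper hCvol (κ₂ ^ 4 / 4) (by positivity)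
  have hM : 1 ≤ r₀.factorial := Nat.factorial_pos r₀
  have hM0 : (0 : ℝ) < (r₀.factorial : ℝ) := by exact_mod_cast hM
  obtain ⟨c₁, hc₁, hfar⟩ := far_int C hCcl hCper hCrat r₀.factorial hM
  -- distance to the rational numbers with small denominators
  have hdist : ∀ x ∈ C, ∀ r : ℕ, 1 ≤ r → r < r₀ → ∀ b : ℤ, c₁ / r₀.factorial ≤ |x - b / r| := by
    intro x hx r hr1 hr2 b
    have hr0 : (r : ℝ) ≠ 0 := by
      have : r ≠ 0 := by omega
      exact_mod_cast this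
    obtain ⟨d, hd⟩ := Nat.dvd_factorial (show 0 < r by omega) hr2.le
    have h1 := hfar x hx
    have h2 : dZ ((r₀.factorial : ℝ) * x) ≤ (r₀.factorial : ℝ) * |x - b / r| := by
      refine (dZ_le_sub_int _ (d * b)).trans (le_of_eq ?_)
      rw [← abs_of_pos hM0, ← abs_mul, abs_of_pos hM0]
      congr 1
      rw [hd]
      push_cast
      field_simp
    rw [div_le_iff₀ hM0]
    linarith
  set ρ₀ : ℝ := c₁ / r₀.factorial / 2 with hρ₀
  have hρ₀0 : 0 < ρ₀ := by positivity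
  obtain ⟨ρ', hρ', j', hsieve⟩ := hr₀ ρ₀ hρ₀0
  set ρ : ℝ := min ρ' ρ₀ with hρdef
  have hρ : 0 < ρ := lt_min hρ' hρ₀0
  have hsieve' : ∀ j, j' ≤ j → ∀ γ : ℝ, ∑ p ∈ PB j, (if ∃ x ∈ C, |(p : ℝ) ^ t * γ - x| ≤ ρ then 1 / (p : ℝ) else 0) ≤
      κ₂ ^ 4 / 4 * ∑ p ∈ PB j, 1 / (p : ℝ) := by
    intro j hj γ
    refine le_trans (sum_le_sum fun p _ => ?_) (hsieve j hj γ)
    by_cases h1 : ∃ x ∈ C, |(p : ℝ) ^ t * γ - x| ≤ ρ
    · obtain ⟨x, hx, hxd⟩ := h1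
      rw [if_pos ⟨x, hx, hxd⟩, if_pos]
      refine ⟨⟨x, hx, hxd.trans (min_le_left _ _)⟩, fun r hr1 hr2 b => ?_⟩
      have h2 := hdist x hx r hr1 hr2 b
      have h3 := hxd.trans (min_le_right _ _)
      have h4 : |x - b / r| ≤ |(p : ℝ) ^ t * γ - b / r| + |(p : ℝ) ^ t * γ - x| := by
        have h5 : x - b / r = ((p : ℝ) ^ t * γ - b / r) - ((p : ℝ) ^ t * γ - x) := by ring
        rw [h5]
        exact abs_sub _ _
      have h6 : c₁ / r₀.factorial = 2 * ρ₀ := by rw [hρ₀]; ring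
      rw [h6] at h2
      linarith
    · rw [if_neg h1]
      split_ifs <;> positivity
  obtain ⟨j₀, j₁, hj', hL, hblk⟩ := exists_blocks j' (100 / e ^ 2) (min (e ^ 2 / 128) (κ₂ ^ 4 / 16)) (lt_min (by positivity) (by positivity))
  set X : ℕ := 4 ^ j₁ with hXdef
  have hX : ∀ j ∈ Ico j₀ j₁, ∀ p ∈ PB j, p ≤ X := by
    intro j hj p hp
    refine (PB_up hp).trans ?_
    exact Nat.pow_le_pow_right (by norm_num) (by have := (mem_Ico.1 hj).2; omega)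
  have hX1 : 1 ≤ X := Nat.one_le_pow _ _ (by norm_num)
  have hX0 : (0 : ℝ) < X := by exact_mod_cast hX1
  have hX4 : ((4 : ℝ) ^ j₁) = X := by rw [hXdef]; push_cast; rfl
  set P : Finset ℕ := (Ico j₀ j₁).biUnion PB with hP
  have hPP : ∀ j ∈ Ico j₀ j₁, ∀ p ∈ PB j, p ∈ P := fun j hj p hp => mem_biUnion.mpr ⟨j, hj, hp⟩
  obtain ⟨c, hc0, hc⟩ := far_finset C hCcl hCper hCrat t P (fun p hp => by
    obtain ⟨j, -, hp⟩ := mem_biUnion.mp hp
    exact (PB_prime hp).one_le)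
  obtain ⟨C₁, hC₁⟩ := one_n_u (Om := Om) e he0 he1 j₀ j₁ hL (fun j hj => (hblk j hj).1)
    (fun j hj p hp => ((hblk j hj).2 p hp).trans (min_le_left _ _))
  -- the length of the windows
  set D : ℝ := 2 * B / c + X ^ t * B / ρ + 3 * B * X ^ (4 * t) + 1 with hD
  have hD1 : 1 ≤ D := by
    have : 0 ≤ 2 * B / c + X ^ t * B / ρ + 3 * B * X ^ (4 * t) := by positivity
    linarith
  refine ⟨⌈2048 * X * (D + 1) / e ^ 2⌉₊ + C₁ + 1, fun H N hH hN o ho => ?_⟩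
  have hH1 : 1 ≤ H := by omega
  have hH2 : 2048 * X * (D + 1) / e ^ 2 ≤ H := by
    refine (Nat.le_ceil _).trans ?_
    have : ⌈2048 * X * (D + 1) / e ^ 2⌉₊ ≤ H := by omega
    exact_mod_cast this
  have hCN : C₁ * H ≤ N := (Nat.mul_le_mul_right H (by omega)).trans hN
  set J : ℕ := ⌊e ^ 2 * H / (2048 * X)⌋₊ with hJ
  have hJ1 : (J : ℝ) ≤ e ^ 2 * H / (2048 * X) := Nat.floor_le (by positivity)
  have hJ2 : e ^ 2 * H / (2048 * X) < J + 1 := Nat.lt_floor_add_one _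
  have hJD : D ≤ J := by
    have h1 : D + 1 ≤ e ^ 2 * H / (2048 * X) := by
      rw [le_div_iff₀ (by positivity)]
      rw [div_le_iff₀ (by positivity)] at hH2
      linarith
    linarith
  have hJpos : (0 : ℝ) < J := by linarith
  have hJ1' : 1 ≤ J := by exact_mod_cast hJpos
  have hJH : 2048 * ((4 : ℝ) ^ j₁ * J) ≤ e ^ 2 * H := by
    rw [le_div_iff₀ (by positivity)] at hJ1
    rw [hX4]
    linarith
  set τ : ℝ := B / J with hτ
  have hτ0 : 0 ≤ τ := by positivity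
  have hτc : τ < c := by
    rw [hτ, div_lt_iff₀ hJpos]
    have h1 : 2 * B / c ≤ J := by
      have : 0 ≤ X ^ t * B / ρ + 3 * B * X ^ (4 * t) := by positivity
      linarith
    rw [div_le_iff₀ hc0] at h1
    have h2 : 0 < c * J := by positivity
    linarith
  have hτρ : (X : ℝ) ^ t * τ ≤ ρ := by
    have h1 : X ^ t * B / ρ ≤ J := by
      have : 0 ≤ 2 * B / c + 3 * B * X ^ (4 * t) := by positivity
      linarith
    rw [hτ, mul_div_assoc', div_le_iff₀ hJpos]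
    rw [div_le_iff₀ hρ] at h1
    linarith
  have hτX : 2 * τ * (X : ℝ) ^ (4 * t) < 1 := by
    have h1 : 3 * B * X ^ (4 * t) + 1 ≤ (J : ℝ) := by
      have : 0 ≤ 2 * B / c + X ^ t * B / ρ := by positivity
      linarith
    have h2 : 2 * τ * (X : ℝ) ^ (4 * t) = 2 * B * X ^ (4 * t) / J := by
      rw [hτ]
      ring
    rw [h2, div_lt_one hJpos]
    have : 0 ≤ (B : ℝ) * X ^ (4 * t) := by positivity
    linarith
  -- the relation
  set R : ℕ → ℕ → Om → Om → Prop := fun p q v v' => ∃ m ∈ U ×ˢ U, (m.1 ≠ 0 ∨ m.2 ≠ 0) ∧ dZ ((p : ℝ) ^ t * dot m.1 (fr v) + (q : ℝ) ^ t * dot m.2 (fr v')) ≤ τ with hR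
  by_contra hcon
  push Not at hcon
  obtain ⟨j, hj, i, hi⟩ := hC₁ f hf J H hJ1' hH1 hJH R S (by
    intro j _ p hp q hq v _ v' _ s s' _ _ hbig
    obtain ⟨m, m', hne, hm, hm', hd⟩ := hB p q J (PB_prime hp).one_le (PB_prime hq).one_le hJ1' v v' s s' hbig
    exact ⟨(m, m'), mem_product.mpr ⟨(hU m).mpr hm, (hU m').mpr hm'⟩, hne, hd⟩) N hCN o ho (by
    refine le_trans ?_ hcon.le
    refine mul_le_mul_of_nonneg_right (mul_le_mul_of_nonneg_right heε (by positivity)) (by positivity))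
  obtain ⟨hjpos, hjw⟩ := hblk j hj
  have hjj' : j' ≤ j := hj'.trans (mem_Ico.1 hj).1
  -- pigeonhole
  obtain ⟨⟨m, m'⟩, hmU, hm⟩ := kpig (PB j) (wt (PB j)) (fun p _ => wt_nonneg (PB j) p) (U ×ˢ U) (hUne.product hUne)
    (fun p q m => p ≠ q ∧ (m.1 ≠ 0 ∨ m.2 ≠ 0) ∧ dZ ((p : ℝ) ^ t * dot m.1 (fr (o (i q))) + (q : ℝ) ^ t * dot m.2 (fr (o (i p)))) ≤ τ) (e ^ 2 / 16384) (by
      refine hi.trans (sum_le_sum fun p _ => sum_le_sum fun q _ => mul_le_mul_of_nonneg_left ?_ (mul_nonneg (wt_nonneg _ _) (wt_nonneg _ _)))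
      by_cases h1 : p ≠ q ∧ R p q (o (i q)) (o (i p))
      · obtain ⟨hpq, m, hmU, hne, hd⟩ := h1
        rw [if_pos ⟨hpq, m, hmU, hne, hd⟩, if_pos ⟨m, hmU, hpq, hne, hd⟩]
      · rw [if_neg h1]
        split_ifs <;> norm_num)
  rw [← hκ₂] at hm
  rw [mem_product] at hmU
  obtain ⟨hmU1, hmU2⟩ := hmU
  dsimp only at hm hmU1 hmU2
  -- both vectors are nonzero
  obtain ⟨p₁, hp₁, q₁, hq₁, hpq₁, hne₁, hd₁⟩ : ∃ p ∈ PB j, ∃ q ∈ PB j, p ≠ q ∧ (m ≠ 0 ∨ m' ≠ 0) ∧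
      dZ ((p : ℝ) ^ t * dot m (fr (o (i q))) + (q : ℝ) ^ t * dot m' (fr (o (i p)))) ≤ τ := by
    by_contra hno
    push Not at hno
    have h2 : κ₂ ≤ 0 := by
      refine hm.trans (le_of_eq (sum_eq_zero fun p hp => sum_eq_zero fun q hq => ?_))
      rw [if_neg, mul_zero]
      rintro ⟨h2, h3, h4⟩
      exact absurd h4 (not_le.mpr (hno p hp q hq h2 h3))
    linarith
  have hm0 : m ≠ 0 := by
    rintro rfl
    have hm'0 : m' ≠ 0 := by
      rcases hne₁ with h | h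
      · exact absurd rfl h
      · exact h
    rw [dot_zero_left, mul_zero, zero_add] at hd₁
    have h1 := hc q₁ (hPP j hj q₁ hq₁) _ (hmemC m' (mem_filter.mpr ⟨hmU2, hm'0⟩) _ (ho (i p₁)))
    linarith
  have hm'0 : m' ≠ 0 := by
    rintro rfl
    rw [dot_zero_left, mul_zero, add_zero] at hd₁
    have h1 := hc p₁ (hPP j hj p₁ hp₁) _ (hmemC m (mem_filter.mpr ⟨hmU1, hm0⟩) _ (ho (i q₁)))
    linarith
  refine contradiction_of_pairs_o t ht (PB j) (fun p hp => PB_prime hp) X (hX j hj) (fun p γ => ∃ x ∈ C, |(p : ℝ) ^ t * γ - x| ≤ ρ)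
    κ₂ τ hκ₂0 hτ0 hτX hjpos (fun p hp => (hjw p hp).trans (min_le_right _ _)) (fun γ => ?_)
    (fun q => dot m (fr (o (i q)))) (fun p => -dot m' (fr (o (i p)))) (fun q _ γ h2 => ?_) ?_
  · exact hsieve' j hjj' γ
  · obtain ⟨z, hz⟩ := exists_int ((q : ℝ) ^ t * γ - dot m (fr (o (i q))))
    refine ⟨dot m (fr (o (i q))) + z, hCper _ (hmemC m (mem_filter.mpr ⟨hmU1, hm0⟩) _ (ho (i q))) z, ?_⟩
    rw [← sub_sub, hz]
    exact h2.trans hτρ
  refine hm.trans (sum_le_sum fun p _ => sum_le_sum fun q _ => mul_le_mul_of_nonneg_left ?_ (mul_nonneg (wt_nonneg _ _) (wt_nonneg _ _)))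
  by_cases h1 : p ≠ q ∧ (m ≠ 0 ∨ m' ≠ 0) ∧ dZ ((p : ℝ) ^ t * dot m (fr (o (i q))) + (q : ℝ) ^ t * dot m' (fr (o (i p)))) ≤ τ
  · rw [if_pos h1]
    have h2 : p ≠ q ∧ dZ ((p : ℝ) ^ t * dot m (fr (o (i q))) - (q : ℝ) ^ t * -dot m' (fr (o (i p)))) ≤ τ := by
      refine ⟨h1.1, ?_⟩
      rw [mul_neg, sub_neg_eq_add]
      exact h1.2.2
    rw [if_pos h2]
  · rw [if_neg h1]
    split_ifs <;> norm_num

end Pool.Agent.Lib.MP_3e612f_nt.NF
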