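import Pool.Agent.Lib.MP_3e612f_nt.NF.R.WinU
import Pool.Agent.Lib.MP_3e612f_nt.NF.O.OneNO

/-! One point with many related pairs of primes, uniform range. -/

set_option autoImplicit false

namespace Pool.Agent.Lib.MP_3e612f_nt.NF

open Finset
open Pool.Agent.Lib.MP_3e612f_nt.MR (mu ex)

open scoped Classical in
/-- `one_n_o` (O/OneNO) with a constant `C` that depends only on `e, j₀, j₁` and the condition `C H ≤ N` (copy of its proof with `win_u`; `J ≤ H`, so the errors `2H + 2J + 1 ≤ 5H` are at most `(e²/512) N/4^{j₁}`; the `N₀` of `kat_o` does not depend on `H`). -/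
theorem one_n_u {Om : Type} (e : ℝ) (he : 0 < e) (he1 : e ≤ 1) (j₀ j₁ : ℕ)
    (hL : 100 / e ^ 2 ≤ ∑ j ∈ Ico j₀ j₁, ∑ p ∈ PB j, 1 / (p : ℝ))
    (hpos : ∀ j ∈ Ico j₀ j₁, 0 < ∑ p ∈ PB j, 1 / (p : ℝ)) (hw : ∀ j ∈ Ico j₀ j₁, ∀ p ∈ PB j, wt (PB j) p ≤ e ^ 2 / 128) :
    ∃ C : ℕ, ∀ (f : Om → ℕ → ℂ), (∀ o n, ‖f o n‖ ≤ 1) → ∀ (J H : ℕ), 1 ≤ J → 1 ≤ H → 2048 * ((4 : ℝ) ^ j₁ * J) ≤ e ^ 2 * H →
    ∀ (R : ℕ → ℕ → Om → Om → Prop) (S : Set Om),
    (∀ j ∈ Ico j₀ j₁, ∀ p ∈ PB j, ∀ q ∈ PB j, ∀ u ∈ S, ∀ v ∈ S, ∀ s s' : ℕ, s + p * J ≤ H → s' + q * J ≤ H →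
      e ^ 2 / 512 * J ≤ ‖∑ j ∈ range J, f u (s + p * j) * (starRingEnd ℂ) (f v (s' + q * j))‖ → R p q u v) →
    ∀ N : ℕ, C * H ≤ N → ∀ o : ℕ → Om, (∀ n, o n ∈ S) →
      2 * e * H * N ≤ ∑ n ∈ Icc 1 N, ‖∑ h ∈ Icc 1 H, (mu (n + h) : ℂ) * f (o n) h‖ →
      ∃ j ∈ Ico j₀ j₁, ∃ i : ℕ → ℕ, e ^ 2 / 16384 ≤ ∑ p ∈ PB j, ∑ q ∈ PB j, wt (PB j) p * wt (PB j) q * (if p ≠ q ∧ R p q (o (i q)) (o (i p)) then 1 else 0) := by
  obtain ⟨N₂, hN₂⟩ := kat_o e he he1 j₀ j₁ hL hpos hw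
  obtain ⟨c₁, hc₁⟩ : ∃ c₁ : ℕ, c₁ = ⌈2 / e⌉₊ := ⟨_, rfl⟩
  obtain ⟨c₂, hc₂⟩ : ∃ c₂ : ℕ, c₂ = ⌈(4 : ℝ) ^ j₁ * (5120 / (3 * e ^ 2))⌉₊ := ⟨_, rfl⟩
  refine ⟨N₂ + c₁ + c₂ + 1, fun f hf J H hJ hH hJH R S hR N hN o ho hbig => ?_⟩
  have he20 : e ^ 2 ≤ 1 := pow_le_one₀ he.le he1
  have hH00 : (1 : ℝ) ≤ H := by exact_mod_cast hH
  have hJ00 : (1 : ℝ) ≤ J := by exact_mod_cast hJ
  have hNr : (((N₂ + c₁ + c₂ + 1 : ℕ) : ℝ)) * H ≤ N := by exact_mod_cast hN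
  have hNN₂ : N₂ ≤ N := by
    have h1 : N₂ * 1 ≤ (N₂ + c₁ + c₂ + 1) * H := Nat.mul_le_mul (by omega) hH
    omega
  have hNe : 4 * (H : ℝ) ≤ 2 * e * N := by
    have h1 : 2 / e ≤ c₁ := by
      rw [hc₁]
      exact Nat.le_ceil _
    rw [div_le_iff₀ he] at h1
    have h2 : (c₁ : ℝ) * H ≤ N := by
      refine le_trans (mul_le_mul_of_nonneg_right ?_ (by positivity)) hNr
      push_cast
      have : (0 : ℝ) ≤ N₂ := Nat.cast_nonneg _
      have : (0 : ℝ) ≤ c₂ := Nat.cast_nonneg _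
      linarith
    have h3 := mul_le_mul_of_nonneg_right h1 (show (0 : ℝ) ≤ H by linarith)
    have h4 := mul_le_mul_of_nonneg_left h2 he.le
    linarith
  set K : ℝ := 1024 * (2 * H + 2 * J + 1) / (3 * e ^ 2) with hK
  have hK0 : 0 ≤ K := by positivity
  have hJle : (J : ℝ) ≤ H := by
    have h1 : (1 : ℝ) ≤ (4 : ℝ) ^ j₁ := one_le_pow₀ (by norm_num)
    have h2 : (J : ℝ) ≤ (4 : ℝ) ^ j₁ * J := le_mul_of_one_le_left (by positivity) h1
    have h3 : e ^ 2 * (H : ℝ) ≤ 1 * H := mul_le_mul_of_nonneg_right he20 (by positivity)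
    linarith
  have hK5 : K ≤ 5120 / (3 * e ^ 2) * H := by
    rw [hK, div_mul_eq_mul_div]
    refine div_le_div_of_nonneg_right ?_ (by positivity)
    linarith
  have hNK : (4 : ℝ) ^ j₁ * K < N := by
    have h1 : (4 : ℝ) ^ j₁ * (5120 / (3 * e ^ 2)) ≤ c₂ := by
      rw [hc₂]
      exact Nat.le_ceil _
    have h2 : (4 : ℝ) ^ j₁ * K ≤ (4 : ℝ) ^ j₁ * (5120 / (3 * e ^ 2) * H) := mul_le_mul_of_nonneg_left hK5 (by positivity)
    have h3 := mul_le_mul_of_nonneg_right h1 (show (0 : ℝ) ≤ H by linarith)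
    have h4 : (c₂ : ℝ) * H < ((N₂ + c₁ + c₂ + 1 : ℕ) : ℝ) * H := by
      refine mul_lt_mul_of_pos_right ?_ (by linarith)
      push_cast
      have : (0 : ℝ) ≤ N₂ := Nat.cast_nonneg _
      have : (0 : ℝ) ≤ c₁ := Nat.cast_nonneg _
      linarith
    linarith
  obtain ⟨r, hr1, hrH, θ, hθ, h1⟩ := win_u (2 * e) (by positivity) H hH N hNe (fun n h => f (o n) h) (fun n h => hf _ _) hbig
  set g : ℕ → ℕ → ℂ := fun n h => f (o n) h with hg
  have hg1 : ∀ n h, ‖g n h‖ ≤ 1 := fun n h => hf _ _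
  have h2 : e * N ≤ ‖∑ m ∈ Icc 1 N, (mu m : ℂ) * Psi r H θ g m‖ := by
    have h3 : 2 * e / 2 * (N : ℝ) = e * N := by ring
    rw [h3] at h1
    exact h1
  obtain ⟨j, hj, h3⟩ := hN₂ N hNN₂ (Psi r H θ g) (norm_Psi_le r H θ g hθ hg1) h2
  have hjj : j + 1 ≤ j₁ := (mem_Ico.1 hj).2
  set P : Finset ℕ := PB j with hP
  have hPp : ∀ p ∈ P, p.Prime := fun p hp => PB_prime hp
  have hLpos : 0 < ∑ p ∈ P, 1 / (p : ℝ) := hpos j hj
  have he2 : e ^ 2 ≤ 1 := pow_le_one₀ he.le he1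
  -- the size of the block
  set M : ℕ := N / 4 ^ j with hM
  set Y : ℝ := N / (4 : ℝ) ^ j with hY
  have h4j : (0 : ℝ) < (4 : ℝ) ^ j := by positivity
  have hYK : K < Y := by
    rw [hY, lt_div_iff₀ h4j]
    have h4 : (4 : ℝ) ^ j ≤ (4 : ℝ) ^ j₁ := pow_le_pow_right₀ (by norm_num) (by omega)
    have h5 := mul_le_mul_of_nonneg_right h4 hK0
    linarith
  have hY0 : 0 ≤ Y := hK0.trans hYK.le
  have hMY : (M : ℝ) ≤ Y := by
    rw [hM, hY]
    have := @Nat.cast_div_le ℝ _ _ _ N (4 ^ j)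
    push_cast at this
    exact this
  -- one pair
  set κ : ℝ := e ^ 2 / 512 with hκ
  have hκ0 : 0 ≤ κ := by positivity
  have hH0 : (0 : ℝ) < H := by exact_mod_cast hH
  have hJ0 : (0 : ℝ) < J := by exact_mod_cast hJ
  have hup : ∀ p ∈ P, (p : ℝ) ≤ (4 : ℝ) ^ j₁ := by
    intro p hp
    have h4 : p ≤ 4 ^ j₁ := (PB_up hp).trans (Nat.pow_le_pow_right (by norm_num) hjj)
    exact_mod_cast h4
  have hfrac : ∀ p ∈ P, 2 * (p : ℝ) * J / H ≤ e ^ 2 / 1024 := by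
    intro p hp
    rw [div_le_iff₀ hH0]
    have h4 := mul_le_mul_of_nonneg_right (hup p hp) hJ0.le
    linarith
  have hpJ : ∀ p ∈ P, 2 * (p * J) ≤ H := by
    intro p hp
    have h4 := hfrac p hp
    rw [div_le_iff₀ hH0] at h4
    have h6 : 2 * ((p : ℝ) * J) ≤ H := by nlinarith
    exact_mod_cast h6
  set G : ℕ → ℕ → ℕ → Prop := fun p q k => R p q (o (st r H (p * k))) (o (st r H (q * k))) ∧ Good r H p J k ∧ Good r H q J k with hG
  set D : ℝ := e ^ 2 / 256 * Y + 2 * H + 2 * J with hD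
  have hD0 : 0 ≤ D := by positivity
  have h4 : ∀ p ∈ P, ∀ q ∈ P, ‖∑ k ∈ Icc 1 (N / max p q), Psi r H θ g (p * k) * (starRingEnd ℂ) (Psi r H θ g (q * k))‖ ≤
      D + ∑ k ∈ Icc 1 M, (if G p q k then 1 else 0) := by
    intro p hp q hq
    have h5 := loc_pair_o r H p q J (N / max p q) hH hrH hJ (hPp p hp).one_le (hPp q hq).one_le (hpJ p hp) (hpJ q hq) θ g hθ hg1 κ hκ0
      (fun k => R p q (o (st r H (p * k))) (o (st r H (q * k)))) (fun k hk1 hk2 hk => hR j hj p hp q hq _ (ho _) _ (ho _) _ _ (hk1.le hH) (hk2.le hH) hk)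
    refine h5.trans ?_
    have hMle : N / max p q ≤ M := by
      rw [hM]
      exact Nat.div_le_div_left ((PB_low hp).le.trans (le_max_left p q)) (by positivity)
    have hNY : ((N / max p q : ℕ) : ℝ) ≤ Y := le_trans (by exact_mod_cast hMle) hMY
    have hN0 : (0 : ℝ) ≤ ((N / max p q : ℕ) : ℝ) := Nat.cast_nonneg _
    have h6 : 2 * (p : ℝ) * J / H * ((N / max p q : ℕ) : ℝ) ≤ e ^ 2 / 1024 * Y :=
      mul_le_mul (hfrac p hp) hNY hN0 (by positivity)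
    have h7 : 2 * (q : ℝ) * J / H * ((N / max p q : ℕ) : ℝ) ≤ e ^ 2 / 1024 * Y :=
      mul_le_mul (hfrac q hq) hNY hN0 (by positivity)
    have h8 : κ * ((N / max p q : ℕ) : ℝ) ≤ κ * Y := mul_le_mul_of_nonneg_left hNY hκ0
    have h9 : ∑ k ∈ Icc 1 (N / max p q), (if R p q (o (st r H (p * k))) (o (st r H (q * k))) ∧ Good r H p J k ∧ Good r H q J k then (1 : ℝ) else 0) ≤
        ∑ k ∈ Icc 1 M, (if G p q k then 1 else 0) := by
      refine sum_le_sum_of_subset_of_nonneg (Icc_subset_Icc_right hMle) fun k _ _ => ?_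
      split_ifs <;> norm_num
    rw [hD]
    have h10 : κ * Y = e ^ 2 / 512 * Y := by rw [hκ]
    linarith
  -- dilation
  set N' : ℕ := 16 ^ (j + 1) * (M + 1) with hN'
  have h16 : ∀ p ∈ P, ∀ q ∈ P, 16 ^ j ≤ q * p ∧ q * p ≤ 16 ^ (j + 1) := by
    intro p hp q hq
    have e0 : (16 : ℕ) = 4 * 4 := by norm_num
    have e1 : (16 : ℕ) ^ j = 4 ^ j * 4 ^ j := by
      rw [e0, mul_pow]
    have e2 : (16 : ℕ) ^ (j + 1) = 4 ^ (j + 1) * 4 ^ (j + 1) := by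
      rw [e0, mul_pow]
    rw [e1, e2]
    exact ⟨Nat.mul_le_mul (PB_low hq).le (PB_low hp).le, Nat.mul_le_mul (PB_up hq) (PB_up hp)⟩
  have h5 : ∀ p ∈ P, ∀ q ∈ P, (16 : ℝ) ^ j * ∑ k ∈ Icc 1 M, (if G p q k then (1 : ℝ) else 0) ≤
      ∑ n ∈ range N', (if G p q (n / (q * p)) then (1 : ℝ) else 0) := by
    intro p hp q hq
    have hQ1 : 1 ≤ q * p := Nat.mul_pos (hPp q hq).pos (hPp p hp).pos
    have h6 := dil_count (fun k => if G p q k then (1 : ℝ) else 0) (fun k => by split_ifs <;> norm_num) (q * p) M N' hQ1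
      (by rw [hN']; exact Nat.mul_le_mul_right _ (h16 p hp q hq).2)
    refine le_trans ?_ h6
    refine mul_le_mul_of_nonneg_right ?_ (sum_nonneg fun k _ => by split_ifs <;> norm_num)
    exact_mod_cast (h16 p hp q hq).1
  set B : ℕ → ℝ := fun n => ∑ p ∈ P, ∑ q ∈ P, wt P p * wt P q * (if p ≠ q ∧ G p q (n / (q * p)) then 1 else 0) with hB
  have h6 : (16 : ℝ) ^ j * (e ^ 2 / 128 * Y) ≤ (16 : ℝ) ^ j * D + ∑ n ∈ range N', B n := by
    refine (mul_le_mul_of_nonneg_left h3 (by positivity)).trans ?_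
    have h7 : ∀ p ∈ P, ∀ q ∈ P, (16 : ℝ) ^ j * (wt P p * wt P q * (if p ≠ q then ‖∑ k ∈ Icc 1 (N / max p q), Psi r H θ g (p * k) * (starRingEnd ℂ) (Psi r H θ g (q * k))‖ else 0)) ≤
        wt P p * wt P q * ((16 : ℝ) ^ j * D) + ∑ n ∈ range N', wt P p * wt P q * (if p ≠ q ∧ G p q (n / (q * p)) then 1 else 0) := by
      intro p hp q hq
      have hw0 : 0 ≤ wt P p * wt P q := mul_nonneg (wt_nonneg _ _) (wt_nonneg _ _)
      by_cases hpq : p = q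
      · rw [if_neg (by simp [hpq]), mul_zero, mul_zero]
        refine add_nonneg (mul_nonneg hw0 (by positivity)) (sum_nonneg fun n _ => mul_nonneg hw0 ?_)
        split_ifs <;> norm_num
      · rw [if_pos hpq]
        have h8 : ∑ n ∈ range N', wt P p * wt P q * (if p ≠ q ∧ G p q (n / (q * p)) then (1 : ℝ) else 0)
            = wt P p * wt P q * ∑ n ∈ range N', (if G p q (n / (q * p)) then (1 : ℝ) else 0) := by
          rw [mul_sum]
          refine sum_congr rfl fun n _ => ?_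
          have h9 : (if p ≠ q ∧ G p q (n / (q * p)) then (1 : ℝ) else 0) = (if G p q (n / (q * p)) then 1 else 0) := by
            by_cases h10 : G p q (n / (q * p))
            · rw [if_pos h10, if_pos ⟨hpq, h10⟩]
            · rw [if_neg h10, if_neg (fun h => h10 h.2)]
          rw [h9]
        rw [h8, ← mul_add, mul_left_comm]
        refine mul_le_mul_of_nonneg_left ?_ hw0
        refine (mul_le_mul_of_nonneg_left (h4 p hp q hq) (by positivity)).trans ?_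
        rw [mul_add]
        have := h5 p hp q hq
        linarith
    rw [mul_sum]
    have h7' : ∑ p ∈ P, (16 : ℝ) ^ j * ∑ q ∈ P, (wt P p * wt P q * (if p ≠ q then ‖∑ k ∈ Icc 1 (N / max p q), Psi r H θ g (p * k) * (starRingEnd ℂ) (Psi r H θ g (q * k))‖ else 0)) ≤
        ∑ p ∈ P, ∑ q ∈ P, (wt P p * wt P q * ((16 : ℝ) ^ j * D) + ∑ n ∈ range N', wt P p * wt P q * (if p ≠ q ∧ G p q (n / (q * p)) then 1 else 0)) := by
      refine sum_le_sum fun p hp => ?_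
      rw [mul_sum]
      exact sum_le_sum fun q hq => h7 p hp q hq
    refine h7'.trans (le_of_eq ?_)
    simp only [sum_add_distrib]
    congr 1
    · have h8 : ∀ p ∈ P, ∑ q ∈ P, wt P p * wt P q * ((16 : ℝ) ^ j * D) = wt P p * ((16 : ℝ) ^ j * D) := by
        intro p _
        rw [← sum_mul, ← mul_sum, sum_wt P hLpos, mul_one]
      rw [sum_congr rfl h8, ← sum_mul, sum_wt P hLpos, one_mul]
    · have h8 : ∀ p ∈ P, ∑ q ∈ P, ∑ n ∈ range N', wt P p * wt P q * (if p ≠ q ∧ G p q (n / (q * p)) then (1 : ℝ) else 0)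
          = ∑ n ∈ range N', ∑ q ∈ P, wt P p * wt P q * (if p ≠ q ∧ G p q (n / (q * p)) then 1 else 0) := fun p _ => sum_comm
      rw [sum_congr rfl h8, sum_comm]
  -- a point
  obtain ⟨n, -, hn⟩ : ∃ n ∈ range N', e ^ 2 / 16384 ≤ B n := by
    by_contra hcon
    push Not at hcon
    have h7 : ∑ n ∈ range N', B n ≤ N' * (e ^ 2 / 16384) := by
      refine (sum_le_sum fun n hn => (hcon n hn).le).trans (le_of_eq ?_)
      rw [sum_const, card_range, nsmul_eq_mul]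
    have h8 : (N' : ℝ) * (e ^ 2 / 16384) = (16 : ℝ) ^ j * ((M + 1) * (e ^ 2 / 1024)) := by
      rw [hN']
      push_cast
      rw [pow_succ]
      ring
    rw [h8] at h7
    have h9 : (16 : ℝ) ^ j * (e ^ 2 / 128 * Y) ≤ (16 : ℝ) ^ j * (D + (M + 1) * (e ^ 2 / 1024)) := by
      rw [mul_add]
      linarith
    have h10 := le_of_mul_le_mul_left h9 (by positivity)
    have h11 : ((M : ℝ) + 1) * (e ^ 2 / 1024) ≤ (Y + 1) * (e ^ 2 / 1024) :=
      mul_le_mul_of_nonneg_right (by linarith) (by positivity)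
    rw [hK, div_lt_iff₀ (by positivity)] at hYK
    rw [hD] at h10
    nlinarith
  refine ⟨j, hj, fun q => st r H (n / q), hn.trans ?_⟩
  rw [hB]
  refine sum_le_sum fun p hp => sum_le_sum fun q hq => ?_
  refine mul_le_mul_of_nonneg_left ?_ (mul_nonneg (wt_nonneg _ _) (wt_nonneg _ _))
  by_cases h7 : p ≠ q ∧ G p q (n / (q * p))
  · obtain ⟨hpq, hR1, hgp, hgq⟩ := h7
    rw [if_pos ⟨hpq, hR1, hgp, hgq⟩]
    have h8 := hgp.st_eq (hPp p hp).one_le hJ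
    have h9 : st r H (q * (n / (q * p))) = st r H (n / p) := by
      rw [mul_comm q p] at hgq ⊢
      exact hgq.st_eq (hPp q hq).one_le hJ
    rw [h8, h9] at hR1
    rw [if_pos ⟨hpq, hR1⟩]
  · rw [if_neg h7]
    split_ifs <;> norm_num

end Pool.Agent.Lib.MP_3e612f_nt.NF
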