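import Pool.Agent.Lib.MP_3e612f_nt.NF.R.KmLogU
import Pool.Agent.Lib.MP_3e612f_nt.NF.R.KmOneU
import Pool.Agent.Lib.MP_3e612f_nt.NF.P.Classify
import Pool.Agent.Lib.MP_3e612f_nt.NF.P.Good

/-! Theorem (P), ordinary averages, uniform range. -/

set_option autoImplicit false

namespace Pool.Agent.Lib.MP_3e612f_nt.NF

open Finset
open Pool.Agent.Lib.MP_3e612f_nt.MR (mu ex)

private theorem muPU (n : ℕ) : ‖(mu n : ℂ)‖ ≤ 1 := by
  have h := ArithmeticFunction.abs_moebius_le_one (n := n)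
  rw [Complex.norm_real, Real.norm_eq_abs]
  change |((ArithmeticFunction.moebius n : ℤ) : ℝ)| ≤ 1
  exact_mod_cast h

/-- the trivial bound for a window -/
private theorem winPU {t : ℕ} (α : Fin t → ℝ) (n H : ℕ) :
    ‖∑ h ∈ Icc 1 H, (mu (n + h) : ℂ) * ex (pol α (h : ℝ))‖ ≤ H := by
  refine (norm_sum_le _ _).trans ?_
  calc ∑ h ∈ Icc 1 H, ‖(mu (n + h) : ℂ) * ex (pol α (h : ℝ))‖ ≤ ∑ h ∈ Icc 1 H, (1 : ℝ) :=
        sum_le_sum fun h _ => by
          rw [norm_mul, norm_ex, mul_one]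
          exact muPU _
    _ = H := by simp

/-- sums over consecutive blocks -/
private theorem block_sum_u (b : ℕ → ℝ) (H : ℕ) (c : ℝ) (h : ∀ n₀, ∑ s ∈ range H, b (n₀ + s) ≤ c)
    (m : ℕ) : ∑ n ∈ range (m * H), b n ≤ m * c := by
  induction m with
  | zero => simp
  | succ m ih =>
    rw [Nat.succ_mul, Finset.sum_range_add]
    push_cast
    have h1 := h (m * H)
    linarith

/-- `∑_{n<x} b_n ≤ 2 ε' H x` if every block of length `H` has sum at most `ε' H²`. -/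
private theorem block_sum_u' (b : ℕ → ℝ) (hb : ∀ n, 0 ≤ b n) (H : ℕ) (hH : 1 ≤ H) (e : ℝ)
    (he : 0 ≤ e) (h : ∀ n₀, ∑ s ∈ range H, b (n₀ + s) ≤ e * H * H) (x : ℕ) (hx : H ≤ x) :
    ∑ n ∈ range x, b n ≤ 2 * e * H * x := by
  have h1 : x ≤ (x / H + 1) * H := by
    have h2 := Nat.lt_div_mul_add (a := x) (b := H) (by omega)
    rw [Nat.succ_mul]
    exact h2.le
  have h2 : ∑ n ∈ range x, b n ≤ ∑ n ∈ range ((x / H + 1) * H), b n :=
    sum_le_sum_of_subset_of_nonneg (range_subset_range.2 h1) fun i _ _ => hb i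
  have h3 := block_sum_u b H _ h (x / H + 1)
  have h4 : (((x / H + 1 : ℕ)) : ℝ) * H ≤ 2 * x := by
    have h5 : (x / H + 1) * H ≤ 2 * x := by
      have h6 := Nat.div_mul_le_self x H
      rw [Nat.succ_mul]
      omega
    exact_mod_cast h5
  have h7 : (0 : ℝ) ≤ e * H := mul_nonneg he (Nat.cast_nonneg _)
  calc ∑ n ∈ range x, b n ≤ ((x / H + 1 : ℕ) : ℝ) * (e * H * H) := h2.trans h3
    _ = (((x / H + 1 : ℕ) : ℝ) * H) * (e * H) := by ring
    _ ≤ (2 * x) * (e * H) := mul_le_mul_of_nonneg_right h4 h7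
    _ = 2 * e * H * x := by ring

open scoped Classical in
/-- `km_log_u` and `km_one_u` together -/
private theorem km_all_u (t I : ℕ) (C : Set ℝ) (Q : ℕ) (ε : ℝ) (hε : 0 < ε) (hI : 1 ≤ I)
    (hIt : I ≤ t) (hC : IsClosed C) (hp : Per1 C) (h : GP I C) :
    ∃ δ : ℝ, 0 < δ ∧ ∃ D : ℕ, ∀ H N : ℕ, D ≤ H → D * H ≤ N →
      ∀ α : ℕ → Fin t → ℝ,
      ∑ n ∈ (Icc 1 N).filter (fun n => Cond I C Q δ H (α n)),
        ‖∑ h ∈ Icc 1 H, (mu (n + h) : ℂ) * ex (pol (α n) (h : ℝ))‖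
        ≤ ε * H * N := by
  rcases Nat.lt_or_ge 1 I with h2 | h2
  · obtain ⟨i, rfl⟩ : ∃ i, I = i + 1 := ⟨I - 1, by omega⟩
    exact km_log_u t ⟨i, by omega⟩ C hC hp h.1 (h.2 h2) Q ε hε
  · obtain rfl : I = 1 := by omega
    exact km_one_u t ⟨0, by omega⟩ rfl C hC hp h.1 Q ε hε

/-- `part_po` (P/PartPO) with `km_log_u`, `km_one_u`: a constant `D` and all `H ≥ D`, `N ≥ D H`. -/
theorem part_pu (t : ℕ) (ht : 1 ≤ t) (K : Set (Fin t → ℝ)) (hK : IsClosed K) (hp : Per K) (h0 : NullP t K) (ε : ℝ) (hε : 0 < ε) :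
    ∃ D : ℕ, ∀ H N : ℕ, D ≤ H → D * H ≤ N → ∀ α : ℕ → Fin t → ℝ, (∀ n, α n ∈ K) →
      ∑ n ∈ Icc 1 N, ‖∑ h ∈ Icc 1 H, (mu (n + h) : ℂ) * ex (pol (α n) (h : ℝ))‖ ≤ ε * H * N := by
  classical
  obtain ⟨e, he0, he1, he2⟩ : ∃ e : ℝ, 0 < e ∧ e ≤ 1 ∧ e ≤ ε / 64 :=
    ⟨min (ε / 64) 1, lt_min (by linarith) one_pos, min_le_right _ _, min_le_left _ _⟩
  have hkm : ∀ (I : ℕ) (C : Set ℝ) (Q : ℕ) (w : ℝ), ∃ δ : ℝ, 0 < δ ∧
      (1 ≤ I ∧ I ≤ t ∧ IsClosed C ∧ Per1 C ∧ GP I C ∧ 0 < w →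
      ∃ D : ℕ, ∀ H N : ℕ, D ≤ H → D * H ≤ N → ∀ α : ℕ → Fin t → ℝ,
      ∑ n ∈ (Icc 1 N).filter (fun n => Cond I C Q δ H (α n)),
        ‖∑ h ∈ Icc 1 H, (mu (n + h) : ℂ) * ex (pol (α n) (h : ℝ))‖
        ≤ ε * w / 4 * H * N) := by
    intro I C Q w
    by_cases hh : 1 ≤ I ∧ I ≤ t ∧ IsClosed C ∧ Per1 C ∧ GP I C ∧ 0 < w
    · obtain ⟨h1, h2, h3, h4, h5, h6⟩ := hh
      obtain ⟨δ, hδ, hH⟩ := km_all_u t I C Q (ε * w / 4) (by positivity) h1 h2 h3 h4 h5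
      exact ⟨δ, hδ, fun _ => hH⟩
    · exact ⟨1, one_pos, fun h => absurd h hh⟩
  choose Δ hΔ0 hΔ using hkm
  obtain ⟨m, I, C, Q, w, hlist, hw, H₁, hcl⟩ :=
    classify good_GP t ht K hK hp (admP_of_null t K hK hp h0) e he0 he1 Δ hΔ0
  have h1 : ∀ k < m, ∃ D : ℕ, ∀ H N : ℕ, D ≤ H → D * H ≤ N →
      ∀ α : ℕ → Fin t → ℝ,
      ∑ n ∈ (Icc 1 N).filter (fun n => Cond (I k) (C k) (Q k) (Δ (I k) (C k) (Q k) (w k)) H (α n)),
        ‖∑ h ∈ Icc 1 H, (mu (n + h) : ℂ) * ex (pol (α n) (h : ℝ))‖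
        ≤ ε * w k / 4 * H * N := by
    intro k hk
    obtain ⟨g1, g2, g3, g4, g5, g6, g7⟩ := hlist k hk
    exact hΔ (I k) (C k) (Q k) (w k) ⟨g1, g2, g3, g4, g5, g7⟩
  choose! Dk hDk using h1
  refine ⟨max (max H₁ 1) (∑ k ∈ range m, Dk k), fun H N hH hN α hα => ?_⟩
  have hHH₁ : H₁ ≤ H := (le_max_left _ _).trans ((le_max_left _ _).trans hH)
  have hH1 : 1 ≤ H := (le_max_right _ _).trans ((le_max_left _ _).trans hH)
  have hHr : (1 : ℝ) ≤ (H : ℝ) := by exact_mod_cast hH1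
  have hNH : H ≤ N := by
    have h2 : 1 * H ≤ max (max H₁ 1) (∑ k ∈ range m, Dk k) * H :=
      Nat.mul_le_mul_right H ((le_max_right _ _).trans (le_max_left _ _))
    omega
  have hN1 : 1 ≤ N := hH1.trans hNH
  have h3 : ∀ k < m,
      ∑ n ∈ (Icc 1 N).filter (fun n => Cond (I k) (C k) (Q k) (Δ (I k) (C k) (Q k) (w k)) H (α n)),
        ‖∑ h ∈ Icc 1 H, (mu (n + h) : ℂ) * ex (pol (α n) (h : ℝ))‖
        ≤ ε * w k / 4 * H * N := by
    intro k hk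
    have h4 : Dk k ≤ max (max H₁ 1) (∑ k ∈ range m, Dk k) :=
      le_trans (single_le_sum (f := Dk) (fun i _ => Nat.zero_le _) (mem_range.2 hk))
        (le_max_right _ _)
    exact hDk k hk H N (h4.trans hH) ((Nat.mul_le_mul_right H h4).trans hN) α
  -- abbreviations
  obtain ⟨S, hS⟩ : ∃ S : ℕ → ℝ, ∀ n, S n =
      ‖∑ h ∈ Icc 1 H, (mu (n + h) : ℂ) * ex (pol (α n) (h : ℝ))‖ := ⟨_, fun _ => rfl⟩
  obtain ⟨P, hP⟩ : ∃ P : ℕ → ℕ → Prop, ∀ k n, P k n ↔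
      Cond (I k) (C k) (Q k) (Δ (I k) (C k) (Q k) (w k)) H (α n) := ⟨_, fun _ _ => Iff.rfl⟩
  simp only [← hS] at h3 ⊢
  simp only [← hP] at h3
  have hS0 : ∀ n, 0 ≤ S n := fun n => by rw [hS]; exact norm_nonneg _
  have hSH : ∀ n, S n ≤ H := fun n => by rw [hS]; exact winPU _ _ _
  obtain ⟨b, hb⟩ : ∃ b : ℕ → ℝ, ∀ n, b n =
      if e * H ≤ S n ∧ ∀ k < m, ¬ P k n then (H : ℝ) else 0 := ⟨_, fun _ => rfl⟩
  have hb0 : ∀ n, 0 ≤ b n := by
    intro n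
    rw [hb]
    split_ifs
    · exact Nat.cast_nonneg _
    · exact le_rfl
  have hbH : ∀ n, b n ≤ H := by
    intro n
    rw [hb]
    split_ifs
    · exact le_rfl
    · exact Nat.cast_nonneg _
  have hblock : ∀ n₀, ∑ s ∈ range H, b (n₀ + s) ≤ e * H * H := by
    intro n₀
    have h4 := hcl H hHH₁ (fun n => (mu n : ℂ)) muPU α hα n₀
    simp only [← hS, ← hP] at h4
    simp only [hb]
    rw [← sum_filter, sum_const, nsmul_eq_mul]
    exact mul_le_mul_of_nonneg_right h4 (Nat.cast_nonneg _)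
  -- (b)
  have hNr : (1 : ℝ) ≤ (N : ℝ) := by exact_mod_cast hN1
  have hB : ∑ n ∈ Icc 1 N, b n ≤ 4 * e * H * N := by
    have h4 : ∑ n ∈ Icc 1 N, b n ≤ ∑ n ∈ range (N + 1), b n := by
      refine sum_le_sum_of_subset_of_nonneg (fun n hn => ?_) fun i _ _ => hb0 i
      have h5 := mem_Icc.1 hn
      exact mem_range.2 (by omega)
    have h5 := block_sum_u' b hb0 H hH1 e he0.le hblock (N + 1) (by omega)
    push_cast at h5
    have h6 : 0 ≤ e * H := by positivity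
    have h7 : 2 * e * H * ((N : ℝ) + 1) ≤ 4 * e * H * N := by nlinarith
    linarith
  -- (a)
  have hA : ∑ n ∈ Icc 1 N, (e * H) ≤ e * H * N := by
    rw [sum_const, Nat.card_Icc, Nat.add_sub_cancel, nsmul_eq_mul]
    exact (mul_comm _ _).le
  -- pointwise
  have hpt : ∀ n ∈ Icc 1 N, S n ≤ e * H + b n +
      ∑ k ∈ range m, (if P k n then S n else 0) := by
    intro n _
    have hs0 : ∀ k ∈ range m, (0 : ℝ) ≤ (if P k n then S n else 0) := by
      intro k _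
      split_ifs
      · exact hS0 n
      · exact le_rfl
    have ha0 : 0 ≤ e * H := by positivity
    have hbb : 0 ≤ b n := hb0 n
    have hss := sum_nonneg hs0
    by_cases hc : ∃ k < m, P k n
    · obtain ⟨k, hk, hPk⟩ := hc
      have h4 := single_le_sum hs0 (mem_range.2 hk)
      rw [if_pos hPk] at h4
      linarith
    · by_cases hd : e * H ≤ S n
      · have h4 : b n = H := by
          rw [hb, if_pos]
          refine ⟨hd, fun k hk hPk => hc ⟨k, hk, hPk⟩⟩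
        have h5 := hSH n
        rw [h4]
        linarith
      · have h5 := (not_le.1 hd).le
        linarith
  -- (c)
  have hC : ∑ n ∈ Icc 1 N, ∑ k ∈ range m, (if P k n then S n else 0) ≤
      ε / 4 * H * N := by
    rw [sum_comm]
    calc ∑ k ∈ range m, ∑ n ∈ Icc 1 N, (if P k n then S n else 0)
        ≤ ∑ k ∈ range m, w k * (ε / 4 * H * N) := by
          refine sum_le_sum fun k hk => ?_
          rw [← sum_filter]
          refine (h3 k (mem_range.1 hk)).trans (le_of_eq ?_)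
          ring
      _ = (∑ k ∈ range m, w k) * (ε / 4 * H * N) := by rw [sum_mul]
      _ ≤ 1 * (ε / 4 * H * N) := mul_le_mul_of_nonneg_right hw (by positivity)
      _ = ε / 4 * H * N := one_mul _
  have hfin : ∑ n ∈ Icc 1 N, S n ≤
      e * H * N + 4 * e * H * N + ε / 4 * H * N := by
    refine (sum_le_sum hpt).trans ?_
    rw [sum_add_distrib, sum_add_distrib]
    exact add_le_add (add_le_add hA hB) hC
  refine hfin.trans ?_
  have hHL : 0 ≤ (H : ℝ) * N := by positivity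
  have h5 : e + 4 * e + ε / 4 ≤ ε := by linarith
  calc e * H * N + 4 * e * H * N + ε / 4 * H * N
      = (e + 4 * e + ε / 4) * (H * N) := by ring
    _ ≤ ε * (H * N) := mul_le_mul_of_nonneg_right h5 hHL
    _ = ε * H * N := by ring

end Pool.Agent.Lib.MP_3e612f_nt.NF
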